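import Pool.Agent.Q23.LD.Pf2

/-!
# The Legendre symbol of the square root of `det [(j^2 - k^2) (j^2 - k^2 / p)]`

Modulo `p` the matrix is `V C V^T` with the Vandermonde matrix `V` of the squares and an antisymmetric
generalised permutation matrix `C` whose entries are folded binomial coefficients, so that the square
root of the determinant is, up to sign, the product of `det V` and of half of the entries of `C`.
-/

set_option autoImplicit false

namespace Pool.Agent.Results.MP_6c59e0_nt.SquareRootSymbol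

/-- The determinant `D_p^(1)` of the matrix with the entries `(j^2 - k^2) (j^2 - k^2 / p)`,
`1 ≤ j, k ≤ (p - 1) / 2`. -/
def D (p : ℕ) [Fact p.Prime] : ℤ :=
  Matrix.det (Matrix.of fun j k : Fin ((p - 1) / 2) =>
    ((((j : ℕ) : ℤ) + 1) ^ 2 - (((k : ℕ) : ℤ) + 1) ^ 2) *
      legendreSym p ((((j : ℕ) : ℤ) + 1) ^ 2 - (((k : ℕ) : ℤ) + 1) ^ 2))

/-- The number `N(p)` of the integers `k` with `0 < k < p / 4` and `(k / p) = -1`. -/
def N (p : ℕ) [Fact p.Prime] : ℕ :=
  ((Finset.range p).filter (fun k => 0 < k ∧ 4 * k < p ∧ legendreSym p (k : ℤ) = -1)).card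

/-- **Main result.**  The determinant is a square, and the Legendre symbol of its square roots is as
conjectured. -/
theorem result : ∀ (p : ℕ) [Fact p.Prime], p % 4 = 1 →
    (∃ s : ℤ, s ^ 2 = D p) ∧
    ∀ s : ℤ, s ^ 2 = D p → legendreSym p s = (-1) ^ N p * jacobiSym (p : ℤ) 3 := by
  intro p _ h4
  have hD : D p = (Pool.Agent.Q23.LD.MM 1 p).det := by
    unfold D Pool.Agent.Q23.LD.MM
    simp only [pow_one]
  refine ⟨?_, ?_⟩
  · obtain ⟨s, hs⟩ := Pool.Agent.Q23.LD.MM_isSquare 1 p h4 odd_one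
    exact ⟨s, by rw [hD, hs, sq]⟩
  · intro s hs
    have hpp := (Fact.out : p.Prime)
    obtain ⟨h, hp⟩ : ∃ h, p = 4 * h + 1 := ⟨p / 4, by omega⟩
    have h0 : 0 < h := by
      rcases Nat.eq_zero_or_pos h with h1 | h1
      · exfalso
        rw [h1] at hp
        exact hpp.ne_one (by omega)
      · exact h1
    have h1 := Pool.Agent.Q23.LD.sqrt_one h0 hp s (by rw [hs, hD])
    have : Fact (Nat.Prime 3) := ⟨by norm_num⟩
    have h2 := legendreSym.quadratic_reciprocity_one_mod_four (p := p) (q := 3) h4 (by norm_num)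
    rw [h1, ← jacobiSym.legendreSym.to_jacobiSym 3, h2]
    have h3 : Pool.Agent.Q23.LD.ch p 3 = legendreSym p ((3 : ℕ) : ℤ) := by
      rw [legendreSym, Pool.Agent.Q23.LD.ch]
      norm_num
    rw [h3]
    rfl

end Pool.Agent.Results.MP_6c59e0_nt.SquareRootSymbol
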